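import Mathlib

/-!
# Tree Prikry forcing

A sentence of the forcing language is represented by the set of the conditions which force it.
-/

namespace Run7.h429.TP

open Set

universe u v

section Sentences

variable {P : Type v} [Preorder P]

/-- `p` forces `not φ` iff no `q ≤ p` forces `φ`. -/
def fnot (φ : Set P) : Set P := {p | ∀ q ≤ p, q ∉ φ}

/-- The set `φ` is a sentence of the forcing language: a condition belongs to it if and only if
`φ` is dense below the condition. -/
def IsSentence (φ : Set P) : Prop := ∀ p, p ∈ φ ↔ ∀ q ≤ p, ∃ r ≤ q, r ∈ φ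

/-- Let `A β` be the sentence `β ∈ A`, for a name `A` of a set of ordinals. The condition `p`
forces that `A ∩ α` belongs to the ground model: densely many conditions `r` below `p` decide
`A ∩ α`, that is, decide all the sentences `β ∈ A` for `β < α`. -/
def ForcesGround (p : P) (A : Ordinal.{u} → Set P) (α : Ordinal.{u}) : Prop :=
  ∀ q ≤ p, ∃ r ≤ q, ∀ β < α, r ∈ A β ∨ r ∈ fnot (A β)

end Sentences

/-- `U` is a non-principal `κ`-complete ultrafilter over `κ = {α | α < κ}`, and `κ` is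
uncountable. -/
structure IsMeasure (κ : Ordinal.{u}) (U : Ultrafilter Ordinal.{u}) : Prop where
  omega_lt : Ordinal.omega0 < κ
  conc : Iio κ ∈ U
  nonprincipal : ∀ β < κ, {β}ᶜ ∈ U
  complete : ∀ μ < κ, ∀ X : Ordinal.{u} → Set Ordinal.{u}, (∀ β < μ, X β ∈ U) →
    {α | ∀ β < μ, α ∈ X β} ∈ U

/-- The finite increasing sequence `t` end-extends `s` (finite increasing sequences are
identified with finite sets). -/
def EndExt (s t : Finset Ordinal.{u}) : Prop := s ⊆ t ∧ ∀ x ∈ s, ∀ y ∈ t, y ∉ s → x < y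

/-- The conditions `(s, T)` of the tree Prikry forcing. -/
structure TreeCond (κ : Ordinal.{u}) (U : Ultrafilter Ordinal.{u}) where
  stem : Finset Ordinal.{u}
  tree : Set (Finset Ordinal.{u})
  lt : ∀ t ∈ tree, ∀ x ∈ t, x < κ
  initial : ∀ t ∈ tree, ∀ s, EndExt s t → s ∈ tree
  stem_mem : stem ∈ tree
  comparable : ∀ t ∈ tree, EndExt t stem ∨ EndExt stem t
  succ : ∀ t ∈ tree, EndExt stem t → {α | (∀ x ∈ t, x < α) ∧ insert α t ∈ tree} ∈ U

theorem EndExt.refl (s : Finset Ordinal.{u}) : EndExt s s :=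
  ⟨Finset.Subset.refl s, fun _ _ _ h h' => absurd h h'⟩

theorem EndExt.trans {r s t : Finset Ordinal.{u}} (h₁ : EndExt r s) (h₂ : EndExt s t) :
    EndExt r t := by
  refine ⟨h₁.1.trans h₂.1, ?_⟩
  intro x hx y hy hyr
  by_cases hys : y ∈ s
  · exact h₁.2 x hx y hys hyr
  · exact h₂.2 x (h₁.1 hx) y hy hys

variable {κ : Ordinal.{u}} {U : Ultrafilter Ordinal.{u}}

/-- `(t, S) ≤ (s, T)` iff `t ∈ T`, `t` end-extends `s` and `S ⊆ T`. -/
instance : Preorder (TreeCond κ U) where
  le q p := q.stem ∈ p.tree ∧ EndExt p.stem q.stem ∧ q.tree ⊆ p.tree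
  le_refl p := ⟨p.stem_mem, EndExt.refl _, Subset.rfl⟩
  le_trans _ _ _ h₁ h₂ := ⟨h₂.2.2 h₁.1, h₂.2.1.trans h₁.2.1, h₁.2.2.trans h₂.2.2⟩

end Run7.h429.TP
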