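import Pool.Agent.Run7.h429.TP.Defs

/-!
# No fresh subsets of ordinals of cofinality greater than `κ`
-/

namespace Run7.h429.TP

open Set Cardinal

universe u v w

section Abstract

variable {P : Type v} [Preorder P]

theorem IsSentence.down {φ : Set P} (h : IsSentence φ) {p q : P} (hp : p ∈ φ) (hq : q ≤ p) :
    q ∈ φ :=
  (h q).2 (fun r hr => (h p).1 hp r (hr.trans hq))

theorem fnot_down {φ : Set P} {p q : P} (hp : p ∈ fnot φ) (hq : q ≤ p) : q ∈ fnot φ :=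
  fun r hr => hp r (hr.trans hq)

theorem IsSentence.dense {φ : Set P} (h : IsSentence φ) {p : P} (hp : p ∉ φ) :
    ∃ q ≤ p, q ∈ fnot φ := by
  by_contra hn
  push Not at hn
  refine hp ((h p).2 ?_)
  intro q hq
  by_contra h1
  push Not at h1
  exact hn q hq h1

/-- If the conditions are divided into few classes of pairwise compatible conditions, then no
new set of ordinals has all its initial segments in the ground model. -/
theorem no_fresh {S : Type w} (st : P → S)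
    (hst : ∀ p q, st p = st q → ∃ r, r ≤ p ∧ r ≤ q) {δ : Ordinal.{u}}
    (hlim : ∀ b < δ, Order.succ b < δ)
    (hsup : ∀ f : S → Ordinal.{u}, (∀ s, f s < δ) → ∃ b < δ, ∀ s, f s ≤ b)
    {A : Ordinal.{u} → Set P} (hA : ∀ β, IsSentence (A β)) {p : P}
    (hp : ∀ α < δ, ForcesGround p A α) : ForcesGround p A δ := by
  classical
  by_cases hδ₀ : δ = 0
  · subst hδ₀
    intro q _
    refine ⟨q, le_rfl, ?_⟩
    intro β hβ
    exact absurd hβ (not_lt.2 zero_le)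
  have hδ : 0 < δ := pos_iff_ne_zero.2 hδ₀
  intro q₀ hq₀
  by_contra hno
  push Not at hno
  -- stems which decide every bounded part
  set D : S → Ordinal.{u} → Prop := fun t α =>
    ∃ r ≤ q₀, st r = t ∧ ∀ β < α, r ∈ A β ∨ r ∈ fnot (A β) with hD
  have h1 : ∀ t, ∃ γ < δ, (¬ D t γ) ∨ ∀ α < δ, D t α := by
    intro t
    by_cases h : ∀ α < δ, D t α
    · exact ⟨0, hδ, Or.inr h⟩
    · push Not at h
      obtain ⟨γ, h2, h3⟩ := h
      exact ⟨γ, h2, Or.inl h3⟩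
  choose γ hγ hγ' using h1
  obtain ⟨γ₁, hγ₁, hγ₁'⟩ := hsup γ hγ
  set a : S → Set Ordinal.{u} := fun t => {β | ∃ r ≤ q₀, st r = t ∧ r ∈ A β} with ha
  set J : S → S → Ordinal.{u} → Prop := fun t' t β =>
    ∃ r ≤ q₀, st r = t' ∧ ((β ∈ a t ∧ r ∈ fnot (A β)) ∨ (β ∉ a t ∧ r ∈ A β)) with hJ
  have h2 : ∀ t t', ∃ b < δ, (∃ β < δ, J t' t β) → J t' t b := by
    intro t t'
    by_cases h : ∃ β < δ, J t' t β
    · obtain ⟨β, h3, h4⟩ := h
      exact ⟨β, h3, fun _ => h4⟩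
    · exact ⟨0, hδ, fun h' => absurd h' h⟩
  choose b hb hb' using h2
  have h3 : ∀ t, ∃ c < δ, ∀ t', b t t' ≤ c := fun t => hsup (b t) (hb t)
  choose c hc hc' using h3
  obtain ⟨c₁, hc₁, hc₁'⟩ := hsup c hc
  have hα : Order.succ (max γ₁ c₁) < δ := hlim _ (max_lt hγ₁ hc₁)
  obtain ⟨r, hr, hrdec⟩ := hp _ hα q₀ hq₀
  set t := st r with ht
  have hcoh : ∀ β < Order.succ (max γ₁ c₁), (r ∈ A β ∧ β ∈ a t) ∨ (r ∈ fnot (A β) ∧ β ∉ a t) := by
    intro β hβ
    rcases hrdec β hβ with h | h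
    · exact Or.inl ⟨h, r, hr, rfl, h⟩
    · refine Or.inr ⟨h, ?_⟩
      rintro ⟨r', h4, h5, h6⟩
      obtain ⟨x, h7, h8⟩ := hst r' r h5
      exact h x h8 ((hA β).down h6 h7)
  obtain ⟨β, hβ, h4, h5⟩ := hno r hr
  have h6 : ∃ r₃ ≤ r, (β ∈ a t ∧ r₃ ∈ fnot (A β)) ∨ (β ∉ a t ∧ r₃ ∈ A β) := by
    by_cases h : β ∈ a t
    · obtain ⟨r₃, h7, h8⟩ := (hA β).dense h4
      exact ⟨r₃, h7, Or.inl ⟨h, h8⟩⟩
    · have h7 : ¬ ∀ q ≤ r, q ∉ A β := h5
      push Not at h7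
      obtain ⟨r₃, h8, h9⟩ := h7
      exact ⟨r₃, h8, Or.inr ⟨h, h9⟩⟩
  obtain ⟨r₃, hr₃, h7⟩ := h6
  obtain ⟨x, hx, hxt, h8⟩ := hb' t (st r₃) ⟨β, hβ, r₃, hr₃.trans hr, rfl, h7⟩
  obtain ⟨y, hyx, hyr₃⟩ := hst x r₃ hxt
  have hlt : b t (st r₃) < Order.succ (max γ₁ c₁) :=
    Order.lt_succ_of_le (((hc' t (st r₃)).trans (hc₁' t)).trans (le_max_right _ _))
  have hyr : y ≤ r := hyr₃.trans hr₃
  rcases hcoh _ hlt with h9 | h9 <;> rcases h8 with h10 | h10
  · exact h10.2 y hyx ((hA _).down h9.1 hyr)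
  · exact h10.1 h9.2
  · exact h9.2 h10.1
  · exact h9.1 y hyr ((hA _).down h10.2 hyx)

end Abstract

variable {κ : Ordinal.{u}} {U : Ultrafilter Ordinal.{u}}

/-- Conditions with the same stem are compatible. -/
theorem compatible {p q : TreeCond κ U} (h : p.stem = q.stem) : ∃ r, r ≤ p ∧ r ≤ q := by
  refine ⟨⟨p.stem, p.tree ∩ q.tree, fun t ht => p.lt t ht.1,
    fun t ht s hs => ⟨p.initial t ht.1 s hs, q.initial t ht.2 s hs⟩,
    ⟨p.stem_mem, h ▸ q.stem_mem⟩, fun t ht => p.comparable t ht.1, ?_⟩, ?_, ?_⟩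
  · intro t ht hts
    refine Filter.mem_of_superset (Filter.inter_mem (p.succ t ht.1 hts)
      (q.succ t ht.2 (h ▸ hts))) ?_
    rintro α ⟨⟨h1, h2⟩, _, h3⟩
    exact ⟨h1, h2, h3⟩
  · exact ⟨p.stem_mem, EndExt.refl _, inter_subset_left⟩
  · refine ⟨?_, ?_, inter_subset_right⟩
    · change p.stem ∈ q.tree
      rw [h]
      exact q.stem_mem
    · change EndExt q.stem p.stem
      rw [h]
      exact EndExt.refl _

theorem main (hU : IsMeasure κ U) {δ : Ordinal.{u}} (hδ : κ.card < δ.cof)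
    {A : Ordinal.{u} → Set (TreeCond κ U)} (hA : ∀ β, IsSentence (A β)) {p : TreeCond κ U}
    (hp : ∀ α < δ, ForcesGround p A α) : ForcesGround p A δ := by
  classical
  have hω : ℵ₀ ≤ κ.card := by
    rw [Ordinal.aleph0_le_card]
    exact hU.omega_lt.le
  have hlim : Order.IsSuccLimit δ := by
    rw [← Ordinal.one_lt_cof_iff]
    exact Cardinal.one_lt_aleph0.trans_le (hω.trans hδ.le)
  have hinf : Infinite (Iio κ) := by
    rw [Cardinal.infinite_iff, Cardinal.mk_Iio_ordinal, Cardinal.aleph0_le_lift]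
    exact hω
  refine no_fresh (S := Finset (Iio κ)) (fun r => r.stem.subtype (· < κ)) ?_
    (fun b hb => hlim.succ_lt hb) ?_ hA hp
  · intro r q h
    refine compatible ?_
    have h' : r.stem.subtype (· < κ) = q.stem.subtype (· < κ) := h
    have h1 := congrArg (Finset.map (Function.Embedding.subtype (· < κ))) h'
    rw [Finset.subtype_map, Finset.subtype_map] at h1
    have h2 : ∀ r : TreeCond κ U, r.stem.filter (· < κ) = r.stem :=
      fun r => Finset.filter_true_of_mem (fun x hx => r.lt _ r.stem_mem x hx)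
    rwa [h2, h2] at h1
  · intro f hf
    have hbd : BddAbove (range f) := ⟨δ, by rintro _ ⟨j, rfl⟩; exact (hf j).le⟩
    refine ⟨⨆ j, f j, ?_, fun j => le_ciSup hbd j⟩
    refine Ordinal.lift_iSup_lt_of_lt_cof ?_ hf
    rw [← Ordinal.lift_cof, Cardinal.mk_finset_of_infinite]
    refine lt_of_le_of_lt (Cardinal.lift_id'.{u, u + 1} #(Iio κ)).le ?_
    rw [Cardinal.mk_Iio_ordinal]
    exact Cardinal.lift_lt.2 hδ

end Run7.h429.TP
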